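import Pool.Agent.R703.MO.Gam
import Pool.Agent.R782.Bal.Tay

/-!
# The weighted flag complex inequality: only faces with even heavy components matter
-/

set_option autoImplicit false
set_option linter.unusedSectionVars false

namespace Pool.Agent.N500.CW

open Pool.Agent.W907.SG Pool.Agent.W907.SM Pool.Agent.TH652.Above Pool.Agent.R703.CW Pool.Agent.R703.MO
open Pool.Agent.W497.FS (cl lam lkF mem_cl mem_lkF cl_of_subset)
open Pool.Agent.TH709.GG (Cls)
open Y365.FS (bN ordM bN_union goodOrders_of)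

/-- Every connected component of the graph on `T` whose edges are the pairs of weight `≠ 2` has an even number of
vertices: there is no part `A` of odd cardinality which is joined to the rest of `T` by edges of weight `2` only. -/
def EvenParts {α : Type} [DecidableEq α] (w : Finset α → ℕ) (T : Finset α) : Prop :=
  ∀ A ⊆ T, Odd A.card → ∃ x ∈ A, ∃ y ∈ T, y ∉ A ∧ w {x, y} ≠ 2

theorem EvenParts.even {α : Type} [DecidableEq α] {w : Finset α → ℕ} {T : Finset α} (h : EvenParts w T) :
    Even T.card := by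
  by_contra ho
  rw [Nat.not_even_iff_odd] at ho
  obtain ⟨x, -, y, hy, hyT, -⟩ := h T (Finset.Subset.refl T) ho
  exact hyT hy

variable {V : Type} [Fintype V] [LinearOrder V] {G : SimpleGraph V}

/-- the coefficient of a face with an odd heavy component vanishes -/
theorem bN_zero {w : Finset V → ℕ} {M : Finset V → ℚ} (hN : Orders G w M) {T : Finset V}
    (hT : G.IsClique (T : Set V)) (hE : ¬ EvenParts w T) : bN M T = 0 := by
  have hF : ∀ T ∈ cl G Finset.univ, ∀ U ⊆ T, U ∈ cl G Finset.univ := fun T hT U hU => cl_of_subset hT hU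
  have hmul : ∀ A B, Disjoint A B → A ∪ B ∈ cl G Finset.univ → (∀ a ∈ A, ∀ b ∈ B, w {a, b} = 2) →
      M (A ∪ B) = M A * M B := fun A B hAB hAB2 h => hN.mul A B hAB ((mem_cl_univ _).1 hAB2) h
  have hw : ∀ e ∈ cl G Finset.univ, e.card = 2 → 2 ≤ w e ∧ M e = 2 * w e := by
    intro e he he2
    obtain ⟨u, v, huv, rfl⟩ := Finset.card_eq_two.1 he2
    exact hN.edge u v ((mem_cl_univ _).1 he (by simp) (by simp) huv)
  have hG := goodOrders_of hF w (fun e he he2 => (hw e he he2).1) M hN.empty (fun v _ => hN.vertex v)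
    (fun e he he2 => (hw e he he2).2) hmul (fun T hT h3 hc => hN.sign T ((mem_cl_univ T).1 hT) h3 hc)
  rw [EvenParts] at hE
  push Not at hE
  obtain ⟨A, hA, hAo, hAw⟩ := hE
  have hTc : T ∈ cl G Finset.univ := (mem_cl_univ T).2 hT
  have hd : Disjoint A (T \ A) := Finset.disjoint_sdiff
  have hu : A ∪ (T \ A) = T := Finset.union_sdiff_of_subset hA
  have h2 := bN_union hd M (fun U hU V hV => hmul U V
    (Finset.disjoint_of_subset_left hU (Finset.disjoint_of_subset_right hV hd))
    (hF T hTc _ (by rw [← hu]; exact Finset.union_subset_union hU hV))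
    (fun x hx y hy => by
      have hy' := Finset.mem_sdiff.1 (hV hy)
      exact hAw x (hU hx) y hy'.1 hy'.2))
  rw [hu, (hG A (hF T hTc A hA)).1 hAo, zero_mul] at h2
  exact h2

/-- links of dimension at most one -/
theorem cd_small {m : ℕ} (hS : HSph (2 * m) G) (T : Finset V) (hT : G.IsClique (T : Set V)) {l : ℕ}
    (hl : T.card + 2 * l = 2 * m) (hl2 : l < 2) : 0 ≤ (-1) ^ l * lam G (lkF G Finset.univ T) := by
  classical
  have hfin : Fintype ↥(lk G T) := Fintype.ofFinite _
  have h1 := hsph_link hS T hT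
  have h3 : 2 * m - T.card = 2 * l := by omega
  rw [h3] at h1
  rw [← chiW_link T, chiW_eq]
  exact cd_of_cls (Cls.small (by omega) (flagEul_of_hsph h1))

/-- **comparison of the weighted and the right-angled quantity** -/
theorem ge_ra {m : ℕ} (hS : HSph (2 * m) G) (w : Finset V → ℕ) (M : Finset V → ℚ) (hN : Orders G w M)
    (hL : ∀ T : Finset V, G.IsClique (T : Set V) → T.Nonempty → EvenParts w T → ∀ l, T.card + 2 * l = 2 * m →
      2 ≤ l → 0 ≤ (-1) ^ l * lam G (lkF G Finset.univ T)) :
    (-1) ^ m * chiW G ≤ (-1) ^ m * omegaN G M := by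
  classical
  rw [omegaN_eq, chiW_eq]
  have hw : ∀ e ∈ cl G Finset.univ, e.card = 2 → 2 ≤ w e ∧ M e = 2 * w e := by
    intro e he he2
    obtain ⟨u, v, huv, rfl⟩ := Finset.card_eq_two.1 he2
    exact hN.edge u v ((mem_cl_univ _).1 he (by simp) (by simp) huv)
  have hmul : ∀ A B, Disjoint A B → A ∪ B ∈ cl G Finset.univ → (∀ a ∈ A, ∀ b ∈ B, w {a, b} = 2) →
      M (A ∪ B) = M A * M B := fun A B hAB hAB2 h => hN.mul A B hAB ((mem_cl_univ _).1 hAB2) h
  have hF : ∀ T ∈ cl G Finset.univ, ∀ U ⊆ T, U ∈ cl G Finset.univ := fun T hT U hU => cl_of_subset hT hU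
  have hG := goodOrders_of hF w (fun e he he2 => (hw e he he2).1) M hN.empty (fun v _ => hN.vertex v)
    (fun e he he2 => (hw e he he2).2) hmul (fun T hT h3 hc => hN.sign T ((mem_cl_univ T).1 hT) h3 hc)
  have hN0 : bN M (∅ : Finset V) = 1 := by simp [bN, hN.empty]
  rw [← lam_ra (H := G) Finset.univ]
  refine compare m Finset.univ (fun σ => 2 ^ σ.card) M
    (fun T hT => card_le_of_hsph hS T ((mem_cl_univ T).1 hT)) ?_ ?_ ?_
  · intro T hT ho
    rw [(hG T hT).1 ho, bN_ra T (Finset.card_pos.1 ho.pos)]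
  · intro T hT j hj
    rcases T.eq_empty_or_nonempty with rfl | hne
    · rw [hN0, bN_ra_empty, sub_self, mul_zero]
    · rw [bN_ra T hne, sub_zero]
      exact (hG T hT).2 j hj
  · intro T hT j l hj hl hb
    rcases T.eq_empty_or_nonempty with rfl | hne
    · exact absurd (by rw [hN0, bN_ra_empty]) hb
    · have hTc := (mem_cl_univ T).1 hT
      have hE : EvenParts w T := by
        by_contra hE
        exact hb (by rw [bN_ra T hne, bN_zero hN hTc hE])
      rcases Nat.lt_or_ge l 2 with hl2 | hl2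
      · exact cd_small hS T hTc (by omega) hl2
      · exact hL T hTc hne hE l (by omega) hl2

/-- an edge of weight at least `3` is contained in a given face with even parts -/
theorem EvenParts.mono_color {w : Finset V → ℕ} {T : Finset V} (hE : EvenParts w T) {C : Type} [DecidableEq C]
    (f : V → C) (hw : ∀ x ∈ T, ∀ y ∈ T, f x ≠ f y → w {x, y} = 2) (c : C) :
    Even (T.filter (fun x => f x = c)).card := by
  by_contra ho
  rw [Nat.not_even_iff_odd] at ho
  obtain ⟨x, hx, y, hy, hyA, hxy⟩ := hE _ (Finset.filter_subset _ T) ho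
  rw [Finset.mem_filter] at hx
  refine hxy (hw x hx.1 y hy fun h => hyA ?_)
  rw [Finset.mem_filter]
  exact ⟨hy, by rw [← h]; exact hx.2⟩

/-- faces with disjoint heavy edges -/
theorem EvenParts.of_heavy {w : Finset V → ℕ} {T : Finset V} (hh : Heavy w T)
    (hmat : ∀ u ∈ T, ∀ v ∈ T, ∀ z ∈ T, u ≠ v → u ≠ z → v ≠ z → w {u, v} = 2 ∨ w {u, z} = 2) : EvenParts w T := by
  classical
  intro A hA ho
  by_contra hcon
  push Not at hcon
  have h1 : ∀ a : V, ∃ b : V, a ∈ T → b ∈ T ∧ b ≠ a ∧ w {a, b} ≠ 2 := by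
    intro a
    by_cases ha : a ∈ T
    · obtain ⟨b, hb, hba, hab⟩ := hh a ha
      exact ⟨b, fun _ => ⟨hb, hba, hab⟩⟩
    · exact ⟨a, fun h => absurd h ha⟩
  choose p hp using h1
  have h2 : ∑ x ∈ A, (1 : ZMod 2) = 0 := by
    refine Finset.sum_involution (fun x _ => p x) ?_ ?_ ?_ ?_
    · intro x _
      decide
    · intro x hx _
      exact (hp x (hA hx)).2.1
    · intro x hx
      by_contra hpx
      exact (hp x (hA hx)).2.2 (hcon x hx (p x) (hp x (hA hx)).1 hpx)
    · intro x hx
      obtain ⟨a1, a2, a3⟩ := hp x (hA hx)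
      obtain ⟨b1, b2, b3⟩ := hp (p x) a1
      by_contra hne
      have h3 := hmat (p x) a1 x (hA hx) (p (p x)) b1 a2 (fun h => b2 h.symm) fun h => hne h.symm
      rcases h3 with h3 | h3
      · rw [Finset.pair_comm] at h3
        exact a3 h3
      · exact b3 h3
  rw [Finset.sum_const, nsmul_eq_mul, mul_one, ZMod.natCast_eq_zero_iff_even] at h2
  exact (Nat.not_even_iff_odd.2 ho) h2

end Pool.Agent.N500.CW
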